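import Pool.Agent.W600.Alg.Thm

/-!
# Affine lines in open multi-cyclic covers of complete intersections with `K + D < 0`

`X` is the quasi-projective variety in the weighted projective space `P(1, …, 1, e 1, …, e r)` with
the equations `G j (x) = 0` (of degree `d j`) and `w i ^ m i = F i (x)` (of degree `m i * e i`) and
the condition `B (x) ≠ 0` (`B` of degree `δ`). If `K + D = O(∑ (m i - 1) e i + ∑ d j + δ - n - 1)`
is negative then there is a non-constant morphism from the affine line to `X` through every point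
of `X` off the branch locus; so `X` is `𝔸¹`-uniruled.
-/

set_option autoImplicit false

namespace Pool.Agent.Results.MP_410da7_ag.AffineLineCovers

open MvPolynomial Pool.Agent.W600.Alg

theorem result {k : Type*} [Field k] [IsAlgClosed k] [CharZero k] {n r g : ℕ}
    {m e : Fin r → ℕ} (hm : ∀ i, 2 ≤ m i) (he : ∀ i, 0 < e i)
    {F : Fin r → MvPolynomial (Fin (n + 1)) k} (hF : ∀ i, (F i).IsHomogeneous (m i * e i))
    {G : Fin g → MvPolynomial (Fin (n + 1)) k} {d : Fin g → ℕ} (hG : ∀ i, (G i).IsHomogeneous (d i))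
    {B : MvPolynomial (Fin (n + 1)) k} {δ : ℕ} (hB : B.IsHomogeneous δ)
    (hK : ∑ i, (m i - 1) * e i + δ + ∑ j, d j ≤ n)
    (h0 : δ = 0 → ∑ i, (m i - 1) * e i + ∑ j, d j = n → 0 < r)
    {P : (Fin (n + 1) → k) × (Fin r → k)} (hP : P ∈ Pts m F G B)
    (hPF : ∀ i, eval P.1 (F i) ≠ 0) :
    ∃ (p : Fin (n + 1) → Polynomial k) (q : Fin r → Polynomial k),
      (∀ t : k, ((fun j => (p j).eval t, fun i => (q i).eval t) :
        (Fin (n + 1) → k) × (Fin r → k)) ∈ Pts m F G B) ∧
      Same e P (fun j => (p j).eval 0, fun i => (q i).eval 0) ∧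
      ∃ t : k, ¬ Same e P (fun j => (p j).eval t, fun i => (q i).eval t) :=
  affine_lines hm he hF hG hB hK h0 hP hPF

end Pool.Agent.Results.MP_410da7_ag.AffineLineCovers
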