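import Pool.Agent.W619.Y.LA1

/-! Quotients of (generically finite covers of) products of a variety and open curves: logarithmic
Kodaira dimension `-∞` implies `A¹`-uniruled. -/

set_option autoImplicit false
set_option linter.overlappingInstances false

universe u

open FF IntermediateField Pool.Agent.W619.PQ Pool.Agent.W619.PL Pool.Agent.W619.TW
  Pool.Agent.W619.X Pool.Agent.W619.Y

namespace Pool.Agent.Results.MP_410da7_ag.MixedOpenQuotients

/-- Let `Y` be a projective variety of dimension `d` with function field `M` (for instance a
point), `Z` a projective variety of dimension `d + n` with function field `L`, `F i` (`i < n`) the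
function fields of curves `C i`, with a generically finite rational map from `Z` to the product of
`Y` and the curves (`halg`), `G` a finite group of automorphisms of `L` which permutes the curves
through `σ`, `B i` a finite set of points of the quotient of `C i` by its stabilizer, such that the
`B i` are permuted by `G`. Consider the places of the function field of `Z / G` which are over a
point of some `B i` as the boundary. Assume `LogMixedNonneg`, for instance that the fixed locus of each `g ≠ 1` in `G` on
the product of the curves is empty or of codimension at least `6`. If the logarithmic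
Kodaira dimension is `-∞`, then `Y` has Kodaira dimension `-∞` or one of the open curves `C i` minus
the preimage of `B i` is the projective line or the affine line. If moreover `Z` is the product of
`Y` and the curves, and `Y` has Kodaira dimension at least `0` or is uniruled, then `Z / G` minus the
boundary is `A¹`-uniruled. -/
theorem result {L : Type u} [Field L] [Algebra ℂ L] (d n : ℕ)
    (hn : Algebra.trdeg ℂ L = (d + n : ℕ))
    (M : IntermediateField ℂ L) [Algebra.EssFiniteType ℂ M] (hM : Algebra.trdeg ℂ M = d)
    (F : Fin n → IntermediateField ℂ L) (hF : ∀ i, IsFF ℂ (F i))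
    (halg : Algebra.IsAlgebraic ↥(M ⊔ ⨆ i, F i) L)
    (G : Subgroup (L ≃ₐ[ℂ] L)) [Finite G] (σ : G →* Equiv.Perm (Fin n))
    (hσ : ∀ (g : G) i, ∀ z ∈ F i, (g : L ≃ₐ[ℂ] L) z ∈ F (σ g i))
    (B : ∀ i, Set (Place ℂ ↥(F i ⊓ fixedField (stb G σ i)))) (hB : ∀ i, (B i).Finite)
    (hinv : BdInv G σ F B) (h : LogMixedNonneg G σ F B)
    (hκ : LogKodairaNeg ℂ (fixedField G) (d + n) (BdQ G σ F B)) :
    (KodairaNeg ℂ M d ∨ ∃ i, IsNegative inf_le_left (B i)) ∧
    (M ⊔ (⨆ i, F i) = ⊤ → (KodairaNeg ℂ M d → IsUniruled ℂ M d) →
      IsA1Uniruled ℂ (fixedField G) (d + n) (BdQ G σ F B)) := by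
  exact a1LM d n hn M hM F halg G σ hσ B hB hinv h hκ

end Pool.Agent.Results.MP_410da7_ag.MixedOpenQuotients
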