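import Pool.Agent.W619.X.Fin

/-! Quotients of (generically finite covers of) products of open curves: logarithmic Kodaira
dimension `-∞` implies `A¹`-uniruled. -/

set_option autoImplicit false
set_option linter.overlappingInstances false

universe u

open FF IntermediateField Pool.Agent.W619.PQ Pool.Agent.W619.PL Pool.Agent.W619.TW
  Pool.Agent.W619.X

namespace Pool.Agent.Results.MP_410da7_ag.OpenProductQuotients

/-- Let `Z` be a variety of dimension `n` with function field `L`, `F i` (`i < n`) the function
fields of curves `C i` with rational maps `Z → C i` such that `Z → ∏ C i` is generically finite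
(`halg`), `G` a finite group of automorphisms of `L` preserving each `F i`, and `B i` a finite set
of points of `C i / G`. Consider the places of the function field of `Z / G` which are over a point
of `B i` for some `i` as the boundary. Assume `LogNonnegCond`, for instance that each `g ≠ 1` in `G`
moves at least `6` of the curves, or that each `g ≠ 1` moves at least `2` of the curves and each
`C i / G` is irrational or has at least `4` branch points. If the logarithmic Kodaira dimension is
`-∞`, then one of the open curves `C i` minus the preimage of `B i` is the projective line or the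
affine line; and `Z / G` minus the boundary is `A¹`-uniruled if `Z` is the product of the curves. -/
theorem result {L : Type u} [Field L] [Algebra ℂ L] (n : ℕ) (hn : Algebra.trdeg ℂ L = n)
    (F : Fin n → IntermediateField ℂ L) (hF : ∀ i, IsFF ℂ (F i))
    (halg : Algebra.IsAlgebraic ↥(⨆ i, F i) L)
    (G : Subgroup (L ≃ₐ[ℂ] L)) [Finite G] (hst : ∀ i, ∀ g ∈ G, ∀ z ∈ F i, g z ∈ F i)
    (B : ∀ i, Set (Place ℂ ↥(F i ⊓ fixedField G))) (hB : ∀ i, (B i).Finite)
    (h : LogNonnegCond G F B) (hκ : LogKodairaNeg ℂ (fixedField G) n (QBd F G B)) :
    (∃ i, IsNegative inf_le_left (B i)) ∧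
    ((⨆ i, F i = ⊤) → IsA1Uniruled ℂ (fixedField G) n (QBd F G B)) :=
  a1L n hn F hF halg G hst B hB h hκ

end Pool.Agent.Results.MP_410da7_ag.OpenProductQuotients
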