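import Pool.Agent.W602.GT.KFin

/-!
MP_410da7_ag, Q1: quasi-projective varieties given by few monomials with large exponents have
logarithmic Kodaira dimension `-∞` if and only if they are covered by affine lines.
-/

set_option autoImplicit false

namespace Pool.Agent.Results.MP_410da7_ag.SparseLogVarieties

open Pool.Agent.W602.GT

/-- Let `V` be an irreducible component of the open part `x_j ≠ 0` (`j` in `U`) of a projective
variety given by forms with at most `s` monomials, the exponents of the `x_j`, `j` not in `U`,
being highly divisible. Then the logarithmic Kodaira dimension of `V` is `-∞` if and only if `V` is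
covered by affine lines `t ↦ (t ^ b_j x_j)`. -/
theorem result {k : Type} [Field k] [IsAlgClosed k] [CharZero k] {n : ℕ} {ι : Type}
    {U : Set (Fin (n + 1))} {F : ι → MvPolynomial (Fin (n + 1)) k} {s N : ℕ}
    (hF : ∀ e, IsPowSparse U s N (F e)) (hN : n * ((s + 1) * ((s - 1) * (s - 2) / 2)) ≤ N)
    {K : Type} [Field K] [Algebra k K] {w : ℕ} {y : Fin (n + 1) → K} (hy : SubVarU U F K w y)
    (hcomp : IsComponentU U F y) :
    ¬ KodGe k K w (OffU U y) 0 ↔ ∃ b, Contracts U k y b :=
  neg_iff hF hN hy hcomp

end Pool.Agent.Results.MP_410da7_ag.SparseLogVarieties
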